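import Mathlib
import Pool.Agent.Helper74.FB.ApG

/-! # Clusters of small primes in a positive proportion of the residue classes modulo a large number

`T` groups of `K` shifts `h`. Modulo every large `a` with `a / φ(a)` bounded a positive proportion of the
residue classes `b` has the following property: for many `n ≤ Y`, where `Y` may be as small as a power of
`log a`, at least `5 T / 18` of the groups contain a shift `h` with `b + a (n + h)` prime. -/

set_option autoImplicit false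

namespace Pool.Agent.Results.MP_5b0a7e_nt.ClustersInManyClasses

open Finset Filter Topology

/-- `m > 1` has at most `r` prime factors, counted with multiplicity -/
def AlmostPrime (r m : ℕ) : Prop := 1 < m ∧ m.primeFactorsList.length ≤ r

open Classical in
/-- the `n ≤ Y` such that the terms `b + a (n + h g (σ g))`, `g ∈ S`, of the progression `b` modulo `a` are
prime, the terms `b + a (n + h g (τ g))` have at most two prime factors for all groups `g`, and all
`b + a (n + h g i)` have at most `r` prime factors -/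
noncomputable def cluster {T K : ℕ} (h : Fin T → Fin K → ℕ) (r : ℕ) (S : Finset (Fin T))
    (σ τ : Fin T → Fin K) (a b Y : ℕ) : Finset ℕ :=
  (Icc 1 Y).filter (fun n : ℕ => (∀ g ∈ S, (b + a * (n + h g (σ g))).Prime) ∧
    (∀ g, AlmostPrime 2 (b + a * (n + h g (τ g)))) ∧ ∀ g i, AlmostPrime r (b + a * (n + h g i)))

open Classical in
/-- **Clusters of small primes in many classes.** -/
theorem result (T : ℕ) (hT : 1 ≤ T) : ∃ K : ℕ, 1 ≤ K ∧ ∃ r : ℕ,
    ∀ h : Fin T → Fin K → ℕ, Function.Injective (fun x : Fin T × Fin K => h x.1 x.2) →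
    (∀ p : ℕ, p.Prime → ∃ s : ℤ, ∀ g i, ¬ (p : ℤ) ∣ s + h g i) →
    ∀ G : ℝ, ∃ κ : ℝ, 0 < κ ∧ ∃ C : ℝ, 0 < C ∧ ∃ a₀ : ℕ, ∀ a : ℕ, a₀ ≤ a → (a : ℝ) ≤ G * a.totient →
      ∀ Y : ℕ, C * Real.log a ^ (T * K + 1) ≤ Y → Y ≤ a →
      κ * a ≤ (({b ∈ Icc 1 a | ∃ (S : Finset (Fin T)) (σ τ : Fin T → Fin K), 5 * T ≤ 18 * S.card ∧
        κ * (Y / Real.log a ^ (T * K + 1)) ≤
          (((cluster h r S σ τ a b Y).card : ℕ) : ℝ)}.card : ℕ) : ℝ) := by
  obtain ⟨M, hM1, hM2⟩ := Pool.Agent.Y827.RO.ceilM T hT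
  obtain ⟨K, hKz, hK, δ, hδ, D₀, H⟩ := Pool.Agent.Helper74.FB.apG T M hM1
  refine ⟨K, by omega, ⌊2 / δ⌋₊, fun h hh hadm G => ?_⟩
  set D : ℕ := D₀ with hD
  set W : ℕ := Pool.Agent.H410R2.WW D with hWdef
  have hW : 0 < W := Pool.Agent.Helper74.AE.WW_pos D
  -- the shifts
  set Hm : ℕ := ∑ x : Fin T × Fin K, h x.1 x.2 with hHm
  have hHb : ∀ g i, h g i ≤ Hm := fun g i =>
    single_le_sum (f := fun x : Fin T × Fin K => h x.1 x.2) (fun _ _ => Nat.zero_le _) (mem_univ (g, i))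
  set g₀ : Fin T := ⟨0, hT⟩ with hg₀
  set i₀ : Fin K := ⟨0, by omega⟩ with hi₀
  set h₀ : ℕ := h g₀ i₀ + W * (1 + Hm) with hh₀
  have hh₀m : Hm < h₀ := by
    have : 1 * (1 + Hm) ≤ W * (1 + Hm) := Nat.mul_le_mul_right _ hW
    omega
  set h' : Option (Fin (T * K)) → ℕ := fun q => match q with
    | none => h₀
    | some i => h (Pool.Agent.TH899.UG.Uni.cl i) (Pool.Agent.TH899.UG.Uni.sx i) with hh'
  have hh'i : Function.Injective h' := by
    intro q q' hqq
    rcases q with _ | i <;> rcases q' with _ | j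
    · rfl
    · exfalso
      have h1 : h₀ = h (Pool.Agent.TH899.UG.Uni.cl j) (Pool.Agent.TH899.UG.Uni.sx j) := hqq
      have h2 := hHb (Pool.Agent.TH899.UG.Uni.cl j) (Pool.Agent.TH899.UG.Uni.sx j)
      omega
    · exfalso
      have h1 : h (Pool.Agent.TH899.UG.Uni.cl i) (Pool.Agent.TH899.UG.Uni.sx i) = h₀ := hqq
      have h2 := hHb (Pool.Agent.TH899.UG.Uni.cl i) (Pool.Agent.TH899.UG.Uni.sx i)
      omega
    · have h1 : h (Pool.Agent.TH899.UG.Uni.cl i) (Pool.Agent.TH899.UG.Uni.sx i) =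
        h (Pool.Agent.TH899.UG.Uni.cl j) (Pool.Agent.TH899.UG.Uni.sx j) := hqq
      have h2 := hh (a₁ := (Pool.Agent.TH899.UG.Uni.cl i, Pool.Agent.TH899.UG.Uni.sx i))
        (a₂ := (Pool.Agent.TH899.UG.Uni.cl j, Pool.Agent.TH899.UG.Uni.sx j)) h1
      have h3 := Prod.ext_iff.1 h2
      simp only at h3
      rw [← Pool.Agent.TH899.UG.Uni.ix_cl i, ← Pool.Agent.TH899.UG.Uni.ix_cl j, h3.1, h3.2]
  have hh'b : ∀ q, h' q ≤ h₀ := by
    intro q
    rcases q with _ | i
    · exact le_rfl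
    · exact (hHb _ _).trans hh₀m.le
  have hix : ∀ g i, h' (some (Pool.Agent.TH899.UG.Uni.ix g i)) = h g i := by
    intro g i
    have e1 : Pool.Agent.TH899.UG.Uni.cl (Pool.Agent.TH899.UG.Uni.ix g i) = g :=
      Pool.Agent.TH899.UG.Uni.cl_ix g i
    have e2 : Pool.Agent.TH899.UG.Uni.sx (Pool.Agent.TH899.UG.Uni.ix g i) = i := by
      unfold Pool.Agent.TH899.UG.Uni.sx Pool.Agent.TH899.UG.Uni.ix
      rw [Equiv.symm_apply_apply]
    show h (Pool.Agent.TH899.UG.Uni.cl (Pool.Agent.TH899.UG.Uni.ix g i))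
      (Pool.Agent.TH899.UG.Uni.sx (Pool.Agent.TH899.UG.Uni.ix g i)) = h g i
    rw [e1, e2]
  obtain ⟨κ, hκ, a₁, Y₁, H1⟩ := H D le_rfl h' hh'i (max G 1) (le_max_right _ _)
  set P : ℕ := 2 ^ T * K ^ T * K ^ T with hP
  have hP0 : 0 < P := by rw [hP]; positivity
  have hPr : (0 : ℝ) < P := by exact_mod_cast hP0
  have hP1 : (1 : ℝ) ≤ P := by exact_mod_cast hP0
  refine ⟨κ / P, by positivity, (Y₁ : ℝ) + 64 * h₀ + 129, by positivity, max a₁ 3, ?_⟩
  intro a ha hGa Y hY1 hYa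
  have haa₁ : a₁ ≤ a := (le_max_left _ _).trans ha
  have ha3 : 3 ≤ a := (le_max_right _ _).trans ha
  have har : (3 : ℝ) ≤ a := by exact_mod_cast ha3
  have hloga1 : 1 ≤ Real.log a := by
    rw [← Real.log_exp 1]
    apply Real.log_le_log (Real.exp_pos 1)
    have := Real.exp_one_lt_d9
    linarith
  have hL1 : 1 ≤ Real.log a ^ (T * K + 1) := one_le_pow₀ hloga1
  have hL0 : 0 < Real.log a ^ (T * K + 1) := by linarith
  have hYbig : (Y₁ : ℝ) + 64 * h₀ + 129 ≤ Y := (le_mul_of_one_le_right (by positivity) hL1).trans hY1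
  have hYN : Y₁ + 64 * h₀ + 129 ≤ Y := by exact_mod_cast hYbig
  have hLY : Real.log a ^ (T * K + 1) ≤ Y := by
    refine le_trans (le_mul_of_one_le_left hL0.le ?_) hY1
    have h1 : (0 : ℝ) ≤ Y₁ := Nat.cast_nonneg _
    have h2 : (0 : ℝ) ≤ h₀ := Nat.cast_nonneg _
    linarith
  have hφ : (0 : ℝ) < a.totient := by exact_mod_cast Nat.totient_pos.2 (by omega)
  have hGG : Pool.Agent.Erdos456.GG a ≤ max G 1 := by
    unfold Pool.Agent.Erdos456.GG
    rw [div_le_iff₀ hφ]
    exact hGa.trans (mul_le_mul_of_nonneg_right (le_max_left _ _) hφ.le)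
  -- the class
  have hex : ∃ v : ℤ, ∀ p ∈ (Icc 1 D).filter Nat.Prime, ∀ q, ¬ (p : ℤ) ∣ v + (a : ℤ) * h' q := by
    choose! s hs using hadm
    obtain ⟨v, hv⟩ := Pool.Agent.Helper74.FB.crt D (fun p => if p ∣ a then 1 else a * s p)
    refine ⟨v, fun p hp q hdv => ?_⟩
    have hpp := (mem_filter.1 hp).2
    have hpW : (p : ℤ) ∣ (W : ℤ) := by
      rw [hWdef, Pool.Agent.H410R2.WW]
      exact_mod_cast dvd_prod_of_mem _ hp
    have hv1 := hv p hp
    by_cases hpa : p ∣ a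
    · simp only [if_pos hpa] at hv1
      have h1 : (p : ℤ) ∣ (a : ℤ) * h' q := Dvd.dvd.mul_right (by exact_mod_cast hpa) _
      have h2 := dvd_sub (dvd_sub hdv h1) hv1
      have e : v + (a : ℤ) * h' q - (a : ℤ) * h' q - (v - 1) = 1 := by ring
      rw [e] at h2
      have h4 : p ∣ 1 := by exact_mod_cast h2
      exact hpp.one_lt.ne' (Nat.dvd_one.1 h4)
    · simp only [if_neg hpa] at hv1
      have key : ∃ g i, (p : ℤ) ∣ (h' q : ℤ) - h g i := by
        rcases q with _ | i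
        · refine ⟨g₀, i₀, ?_⟩
          have e : ((h' none : ℕ) : ℤ) - h g₀ i₀ = (W : ℤ) * (1 + Hm) := by
            show ((h₀ : ℕ) : ℤ) - h g₀ i₀ = (W : ℤ) * (1 + Hm)
            rw [hh₀]
            push_cast
            ring
          rw [e]
          exact hpW.mul_right _
        · refine ⟨Pool.Agent.TH899.UG.Uni.cl i, Pool.Agent.TH899.UG.Uni.sx i, ?_⟩
          have e : ((h' (some i) : ℕ) : ℤ) - h (Pool.Agent.TH899.UG.Uni.cl i)
            (Pool.Agent.TH899.UG.Uni.sx i) = 0 := sub_self _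
          rw [e]
          exact dvd_zero _
      obtain ⟨g, i, hgi⟩ := key
      have h2 := dvd_sub (dvd_sub hdv hv1) (hgi.mul_left (a : ℤ))
      have e : v + (a : ℤ) * h' q - (v - a * s p) - a * ((h' q : ℤ) - h g i) = a * (s p + h g i) := by ring
      rw [e] at h2
      rcases (Nat.prime_iff_prime_int.1 hpp).dvd_or_dvd h2 with h3 | h3
      · exact hpa (by exact_mod_cast h3)
      · exact hs p hpp g i h3
  obtain ⟨v, hv⟩ := hex
  have hmain := H1 a haa₁ hGG Y (by omega) hLY hYa v hv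
  have ha0 : (0 : ℝ) ≤ a := Nat.cast_nonneg a
  have hκP : κ / P ≤ κ := div_le_self hκ.le hP1
  refine (mul_le_mul_of_nonneg_right hκP ha0).trans (hmain.trans ?_)
  rw [Nat.cast_le]
  apply card_le_card
  intro b hb
  obtain ⟨hb1, hb2⟩ := mem_filter.1 hb
  refine mem_filter.2 ⟨hb1, ?_⟩
  have hab := mem_Icc.1 hb1
  -- pigeonhole
  set Z : ℝ := Y / Real.log a ^ (T * K + 1) with hZ
  set QQ : Finset (Finset (Fin T) × (Fin T → Fin K) × (Fin T → Fin K)) :=
    univ.filter (fun q => M + 1 ≤ q.1.card) with hQQ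
  have hsub : (Icc 1 Y).filter (fun n : ℕ => Pool.Agent.Helper74.FB.GdA M δ a Y h' b n) ⊆
      QQ.biUnion (fun q => cluster h ⌊2 / δ⌋₊ q.1 q.2.1 q.2.2 a b Y) := by
    intro n hn
    obtain ⟨hn1, hn2, hn3, hr, S, σ, τ, hS, hτ, hσ⟩ := mem_filter.1 hn
    refine mem_biUnion.2 ⟨(S, σ, τ), mem_filter.2 ⟨mem_univ _, hS⟩, ?_⟩
    have haY : 129 ≤ a * Y := by
      calc 129 ≤ 1 * Y := by omega
        _ ≤ a * Y := Nat.mul_le_mul_right _ (by omega)
    have hval : ∀ g i, ((b + a * n : ℕ) : ℤ) + (a : ℤ) * h' (some (Pool.Agent.TH899.UG.Uni.ix g i)) =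
        ((b + a * (n + h g i) : ℕ) : ℤ) := by
      intro g i
      rw [hix]
      push_cast
      ring
    have hbd : ∀ q, 64 * |(a : ℤ) * h' q| ≤ ((a * Y : ℕ) : ℤ) := by
      intro q
      rw [abs_of_nonneg (by positivity)]
      have h1 : 64 * (a * h' q) ≤ a * Y := by
        calc 64 * (a * h' q) = a * (64 * h' q) := by ring
          _ ≤ a * Y := Nat.mul_le_mul_left _ (by
            have := hh'b q
            omega)
      exact_mod_cast h1
    unfold cluster
    refine mem_filter.2 ⟨hn1, ?_, ?_, ?_⟩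
    · intro g hg
      have h1 := hσ g hg
      beta_reduce at h1
      rw [hval, Int.toNat_natCast] at h1
      exact h1
    · intro g
      have h1 := hτ g
      have h2 := Pool.Agent.Helper74.FB.apV_two haY hn2 hn3 (hbd (some (Pool.Agent.TH899.UG.Uni.ix g (τ g)))) h1
      obtain ⟨q, hq1, hq2, hq3⟩ := h2
      rw [hval] at hq2
      have hq4 : q = b + a * (n + h g (τ g)) := by exact_mod_cast hq2
      rw [hq4] at hq1 hq3
      exact ⟨hq1, hq3⟩
    · intro g i
      have h1 := hr (some (Pool.Agent.TH899.UG.Uni.ix g i))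
      have h2 := Pool.Agent.Helper74.FB.apV_of hδ haY hn2 hn3 (hbd (some (Pool.Agent.TH899.UG.Uni.ix g i))) h1
      obtain ⟨q, hq1, hq2, hq3⟩ := h2
      rw [hval] at hq2
      have hq4 : q = b + a * (n + h g i) := by exact_mod_cast hq2
      rw [hq4] at hq1 hq3
      exact ⟨hq1, hq3⟩
  have hST : ∀ S : Finset (Fin T), M + 1 ≤ S.card → 5 * T ≤ 18 * S.card := by
    intro S hS
    have h4 : (T : ℝ) ≤ (18 / 5) * (S.card : ℝ) :=
      hM2.trans (mul_le_mul_of_nonneg_left (by exact_mod_cast hS) (by norm_num))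
    have h5 : (5 : ℝ) * T ≤ 18 * S.card := by linarith
    exact_mod_cast h5
  by_contra hcon
  push Not at hcon
  have e1 := (Nat.cast_le (α := ℝ)).2 ((card_le_card hsub).trans card_biUnion_le)
  rw [Nat.cast_sum] at e1
  have e3 : QQ.card ≤ P := by
    refine (card_le_univ _).trans ?_
    rw [Fintype.card_prod, Fintype.card_prod, Fintype.card_finset, Fintype.card_fun, Fintype.card_fin,
      Fintype.card_fin, hP, mul_assoc]
  have e4 : (QQ.card : ℝ) ≤ P := by exact_mod_cast e3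
  have hY0 : (0 : ℝ) < Y := by exact_mod_cast (by omega : 0 < Y)
  have hZ0 : 0 < Z := by positivity
  rcases QQ.eq_empty_or_nonempty with hQe | hQne
  · rw [hQe, Finset.sum_empty] at e1
    have := hb2.trans e1
    nlinarith
  · have e2 : ∑ q ∈ QQ, ((cluster h ⌊2 / δ⌋₊ q.1 q.2.1 q.2.2 a b Y).card : ℝ) < ∑ _q ∈ QQ, κ / P * Z := by
      apply Finset.sum_lt_sum_of_nonempty hQne
      intro q hq
      exact hcon q.1 q.2.1 q.2.2 (hST q.1 (mem_filter.1 hq).2)
    rw [Finset.sum_const, nsmul_eq_mul] at e2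
    have e5 : (QQ.card : ℝ) * (κ / P * Z) ≤ P * (κ / P * Z) :=
      mul_le_mul_of_nonneg_right e4 (by positivity)
    have e6 : (P : ℝ) * (κ / P * Z) = κ * Z := by
      field_simp
    rw [e6] at e5
    have := hb2.trans e1
    linarith

end Pool.Agent.Results.MP_5b0a7e_nt.ClustersInManyClasses
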