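import Mathlib
import Pool.Agent.Helper86.Lin2.Main

/-!
# The least prime in an arithmetic progression: few exceptional moduli imply none
-/

set_option autoImplicit false

namespace Pool.Agent.Results.MP_5b0a7e_nt.FewExceptionsSuffice

open Filter Real

/-- For all large `q` every reduced class modulo `q` contains a prime which is at most `g q`. -/
def Holds (g : ℕ → ℝ) : Prop :=
  ∀ᶠ q : ℕ in atTop, ∀ b : ℕ, q.Coprime b → ∃ p : ℕ, p.Prime ∧ p ≡ b [MOD q] ∧ (p : ℝ) ≤ g q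

/-- The exceptional pairs `(q, b)` with `Q < q ≤ 2 Q`: `b < q` is prime to `q` and all primes of the class of `b`
modulo `q` are larger than `B q`. -/
def Pairs (B : ℕ → ℝ) (Q : ℕ) : Set (ℕ × ℕ) :=
  {x | Q < x.1 ∧ x.1 ≤ 2 * Q ∧ x.2 < x.1 ∧ x.1.Coprime x.2 ∧
    ∀ p : ℕ, p.Prime → p ≡ x.2 [MOD x.1] → B x.1 < p}

/-- The exceptional moduli: the first members of the exceptional pairs. -/
def Moduli (B : ℕ → ℝ) (Q : ℕ) : Set ℕ := Prod.fst '' Pairs B Q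

/-- (1) `p(q) = O(φ(q) log² q)` holds if and only if for some `C` the number of moduli `Q < q ≤ 2 Q` with
`p(q) > C φ(q) log² q` is bounded. (2) If for all large `Q` the number of these exceptional moduli is at most
`K log ^ A Q` or the number of the exceptional pairs (modulus, class) is at most `K log ^ (2 A) Q`, then
`p(q) = O(φ(q) log ^ (2 + A) q)`. (3) If for all large `Q` the number of moduli `Q < q ≤ 2 Q` with `p(q) > q ^ lam` is
at most `K Q ^ θ` or the number of pairs is at most `K Q ^ (2 θ)`, `θ < 1`, then `p(q) = O(q ^ (lam / (1 - θ)))`.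
(4) So Linnik's constant is `1` if and only if for all `lam > 1` the number of moduli `Q < q ≤ 2 Q` with
`p(q) > q ^ lam` is `O(Q ^ θ)` for all `θ > 0`. -/
theorem result :
    ((∃ C : ℝ, Holds fun q => C * q.totient * log q ^ 2) ↔
      ∃ C K : ℝ, 0 ≤ C ∧ ∀ᶠ Q : ℕ in atTop,
        ((Moduli (fun q => C * q.totient * log q ^ 2) Q).ncard : ℝ) ≤ K) ∧
    (∀ C K A : ℝ, 0 ≤ C → 0 ≤ A → (∀ᶠ Q : ℕ in atTop,
      ((Moduli (fun q => C * q.totient * log q ^ 2) Q).ncard : ℝ) ≤ K * log Q ^ A ∨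
      ((Pairs (fun q => C * q.totient * log q ^ 2) Q).ncard : ℝ) ≤ K * log Q ^ (2 * A)) →
      ∃ C' : ℝ, Holds fun q => C' * q.totient * log q ^ (2 + A)) ∧
    (∀ lam θ K : ℝ, 0 ≤ lam → 0 ≤ θ → θ < 1 → (∀ᶠ Q : ℕ in atTop,
      ((Moduli (fun q => (q : ℝ) ^ lam) Q).ncard : ℝ) ≤ K * (Q : ℝ) ^ θ ∨
      ((Pairs (fun q => (q : ℝ) ^ lam) Q).ncard : ℝ) ≤ K * (Q : ℝ) ^ (2 * θ)) →
      ∃ C' : ℝ, Holds fun q => C' * (q : ℝ) ^ (lam / (1 - θ))) ∧
    ((∀ ε : ℝ, 0 < ε → Holds fun q => (q : ℝ) ^ (1 + ε)) ↔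
      ∀ lam θ : ℝ, 1 < lam → 0 < θ → ∀ᶠ Q : ℕ in atTop,
        ((Moduli (fun q => (q : ℝ) ^ lam) Q).ncard : ℝ) ≤ (Q : ℝ) ^ θ) :=
  ⟨Helper86.Lin2.bound_iff,
    fun C K A h1 h2 h3 => Helper86.Lin2.log_version C K A h1 h2 h3,
    fun lam θ K h1 h2 h3 h4 => Helper86.Lin2.pow_version lam θ K h1 h2 h3 h4,
    Helper86.Lin2.linnik_one_iff⟩

end Pool.Agent.Results.MP_5b0a7e_nt.FewExceptionsSuffice
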