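import Mathlib
import Pool.Agent.Helper74.FB.ApQ

/-! # Small primes in a positive proportion of the residue classes, with almost prime neighbours

Let `H` be a large admissible set of shifts and `h₀ ∈ H`. Modulo every large `a` with `a / φ(a)` bounded a positive
proportion of the residue classes `b` has the following property: for many `n ≤ Y`, where `Y` may be as small as a
power of `log a`, the number `b + a (n + h₀)` is prime, and `m` of its neighbours `b + a (n + h)` in the progression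
have at most two prime factors. -/

set_option autoImplicit false

namespace Pool.Agent.Results.MP_5b0a7e_nt.PrescribedPrimeWithNeighbours

open Finset

/-- for every prime `p` there is `s` such that `p` divides no `s + h`, `h ∈ H` -/
def Admissible (H : Finset ℕ) : Prop := ∀ p : ℕ, p.Prime → ∃ s : ℤ, ∀ h ∈ H, ¬ (p : ℤ) ∣ s + h

open Classical in
/-- the `n ≤ Y` such that `b + a (n + h₀)` is prime and the numbers `b + a (n + h)`, `h ∈ P`, have at most two prime
factors, counted with multiplicity -/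
noncomputable def cluster (a b Y h₀ : ℕ) (P : Finset ℕ) : Finset ℕ :=
  (Icc 1 Y).filter (fun n : ℕ => (b + a * (n + h₀)).Prime ∧
    ∀ h ∈ P, (b + a * (n + h)).primeFactorsList.length ≤ 2)

open Classical in
/-- **Primes with almost prime neighbours in many residue classes.** -/
theorem result (m : ℕ) : ∃ K A : ℕ, ∀ H : Finset ℕ, K ≤ H.card → Admissible H → ∀ h₀ ∈ H, ∀ G : ℝ,
    ∃ κ : ℝ, 0 < κ ∧ ∃ a₀ : ℕ, ∀ a : ℕ, a₀ ≤ a → (a : ℝ) ≤ G * a.totient →
      ∀ Y : ℕ, Real.log a ^ A ≤ Y → Y ≤ a →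
      κ * a ≤ (({b ∈ Icc 1 a | ∃ P ⊆ H.erase h₀, P.card = m ∧
        Y / Real.log a ^ A ≤ (((cluster a b Y h₀ P).card : ℕ) : ℝ)}.card : ℕ) : ℝ) := by
  set T : ℕ := m + 1 with hT'
  have hT : 1 ≤ T := by omega
  obtain ⟨K, hKz, hK, δ, hδ, D, c, hc, HH⟩ := Pool.Agent.Helper74.FB.lowP_pin T hT
  set g₀ : Fin T := ⟨0, hT⟩ with hg₀
  set i₀ : Fin K := ⟨0, by omega⟩ with hi₀
  have HP := HH D le_rfl g₀ i₀
  refine ⟨T * K, T * K + 2, fun H hcard hadm h₁ hh₁ G => ?_⟩
  obtain ⟨hs, hs0⟩ : ∃ hs : (Fin T × Fin K) ↪ {x // x ∈ H}, (hs (g₀, i₀) : ℕ) = h₁ := by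
    obtain ⟨ys⟩ : Nonempty ((Fin T × Fin K) ↪ {x // x ∈ H}) := by
      apply Function.Embedding.nonempty_of_card_le
      simpa using hcard
    refine ⟨ys.trans (Equiv.swap (ys (g₀, i₀)) ⟨h₁, hh₁⟩).toEmbedding, ?_⟩
    simp
  set h : Fin T → Fin K → ℕ := fun g i => (hs (g, i) : ℕ) with hdef
  have hhinj : Function.Injective (fun x : Fin T × Fin K => h x.1 x.2) := by
    intro x x' hxx
    exact hs.injective (Subtype.ext hxx)
  have hadm' : ∀ p : ℕ, p.Prime → ∃ s : ℤ, ∀ g i, ¬ (p : ℤ) ∣ s + h g i := by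
    intro p hp
    obtain ⟨s, hs'⟩ := hadm p hp
    exact ⟨s, fun g i => hs' _ (hs (g, i)).2⟩
  set W : ℕ := Pool.Agent.H410R2.WW D with hWdef
  have hW : 0 < W := Pool.Agent.Helper74.AE.WW_pos D
  -- the shifts
  set Hm : ℕ := ∑ x : Fin T × Fin K, h x.1 x.2 with hHm
  have hHb : ∀ g i, h g i ≤ Hm := fun g i =>
    single_le_sum (f := fun x : Fin T × Fin K => h x.1 x.2) (fun _ _ => Nat.zero_le _) (mem_univ (g, i))
  set h₀ : ℕ := h g₀ i₀ + W * (1 + Hm) with hh₀
  have hh₀m : Hm < h₀ := by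
    have : 1 * (1 + Hm) ≤ W * (1 + Hm) := Nat.mul_le_mul_right _ hW
    omega
  set h' : Option (Fin (T * K)) → ℕ := fun q => match q with
    | none => h₀
    | some i => h (Pool.Agent.TH899.UG.Uni.cl i) (Pool.Agent.TH899.UG.Uni.sx i) with hh'
  have hh'i : Function.Injective h' := by
    intro q q' hqq
    rcases q with _ | i <;> rcases q' with _ | j
    · rfl
    · exfalso
      have h1 : h₀ = h (Pool.Agent.TH899.UG.Uni.cl j) (Pool.Agent.TH899.UG.Uni.sx j) := hqq
      have h2 := hHb (Pool.Agent.TH899.UG.Uni.cl j) (Pool.Agent.TH899.UG.Uni.sx j)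
      omega
    · exfalso
      have h1 : h (Pool.Agent.TH899.UG.Uni.cl i) (Pool.Agent.TH899.UG.Uni.sx i) = h₀ := hqq
      have h2 := hHb (Pool.Agent.TH899.UG.Uni.cl i) (Pool.Agent.TH899.UG.Uni.sx i)
      omega
    · have h1 : h (Pool.Agent.TH899.UG.Uni.cl i) (Pool.Agent.TH899.UG.Uni.sx i) =
        h (Pool.Agent.TH899.UG.Uni.cl j) (Pool.Agent.TH899.UG.Uni.sx j) := hqq
      have h2 := hhinj (a₁ := (Pool.Agent.TH899.UG.Uni.cl i, Pool.Agent.TH899.UG.Uni.sx i))
        (a₂ := (Pool.Agent.TH899.UG.Uni.cl j, Pool.Agent.TH899.UG.Uni.sx j)) h1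
      have h3 := Prod.ext_iff.1 h2
      simp only at h3
      rw [← Pool.Agent.TH899.UG.Uni.ix_cl i, ← Pool.Agent.TH899.UG.Uni.ix_cl j, h3.1, h3.2]
  have hh'b : ∀ q, h' q ≤ h₀ := by
    intro q
    rcases q with _ | i
    · exact le_rfl
    · exact (hHb _ _).trans hh₀m.le
  have hix : ∀ g i, h' (some (Pool.Agent.TH899.UG.Uni.ix g i)) = h g i := by
    intro g i
    have e1 : Pool.Agent.TH899.UG.Uni.cl (Pool.Agent.TH899.UG.Uni.ix g i) = g :=
      Pool.Agent.TH899.UG.Uni.cl_ix g i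
    have e2 : Pool.Agent.TH899.UG.Uni.sx (Pool.Agent.TH899.UG.Uni.ix g i) = i := by
      unfold Pool.Agent.TH899.UG.Uni.sx Pool.Agent.TH899.UG.Uni.ix
      rw [Equiv.symm_apply_apply]
    show h (Pool.Agent.TH899.UG.Uni.cl (Pool.Agent.TH899.UG.Uni.ix g i))
      (Pool.Agent.TH899.UG.Uni.sx (Pool.Agent.TH899.UG.Uni.ix g i)) = h g i
    rw [e1, e2]
  obtain ⟨κ, hκ, a₁, Y₁, H1⟩ := Pool.Agent.Helper74.FB.apQ hδ hc D HP h' hh'i (max G 1) (le_max_right _ _)
  set P : ℕ := K ^ T with hP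
  have hP0 : 0 < P := by rw [hP]; positivity
  have hPr : (0 : ℝ) < P := by exact_mod_cast hP0
  have hP1 : (1 : ℝ) ≤ P := by exact_mod_cast hP0
  have tN : Filter.Tendsto (fun N : ℕ => (N : ℝ)) Filter.atTop Filter.atTop :=
    tendsto_natCast_atTop_atTop
  have hlog : Filter.Tendsto (fun N : ℕ => Real.log (N : ℝ)) Filter.atTop Filter.atTop :=
    Real.tendsto_log_atTop.comp tN
  set C : ℝ := (Y₁ : ℝ) + 64 * h₀ + 129 with hC
  have hC0 : 0 < C := by positivity
  obtain ⟨a₂, ha₂⟩ := Filter.eventually_atTop.1 (hlog.eventually_ge_atTop (C + 1 + P / κ))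
  refine ⟨κ, hκ, max (max a₁ 3) a₂, ?_⟩
  intro a ha hGa Y hY1 hYa
  have haa₁ : a₁ ≤ a := ((le_max_left _ _).trans (le_max_left _ _)).trans ha
  have ha3 : 3 ≤ a := ((le_max_right _ _).trans (le_max_left _ _)).trans ha
  have hloga := ha₂ a ((le_max_right _ _).trans ha)
  have hPκ : 0 < P / κ := by positivity
  have hloga1 : 1 ≤ Real.log a := by linarith
  have hlogaC : C ≤ Real.log a := by linarith
  have hlogaP : P / κ ≤ Real.log a := by linarith
  have hL1 : 1 ≤ Real.log a ^ (T * K + 1) := one_le_pow₀ hloga1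
  have hL0 : 0 < Real.log a ^ (T * K + 1) := by linarith
  have hLs : Real.log a ^ (T * K + 2) = Real.log a * Real.log a ^ (T * K + 1) := by ring
  rw [hLs] at hY1
  have hYC : C * Real.log a ^ (T * K + 1) ≤ Y :=
    (mul_le_mul_of_nonneg_right hlogaC hL0.le).trans hY1
  have hYbig : (Y₁ : ℝ) + 64 * h₀ + 129 ≤ Y := (le_mul_of_one_le_right (by positivity) hL1).trans hYC
  have hYN : Y₁ + 64 * h₀ + 129 ≤ Y := by exact_mod_cast hYbig
  have hLY : Real.log a ^ (T * K + 1) ≤ Y := (le_mul_of_one_le_left hL0.le hloga1).trans hY1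
  have hφ : (0 : ℝ) < a.totient := by exact_mod_cast Nat.totient_pos.2 (by omega)
  have hGG : Pool.Agent.Erdos456.GG a ≤ max G 1 := by
    unfold Pool.Agent.Erdos456.GG
    rw [div_le_iff₀ hφ]
    exact hGa.trans (mul_le_mul_of_nonneg_right (le_max_left _ _) hφ.le)
  -- the class
  have hex : ∃ v : ℤ, ∀ p ∈ (Icc 1 D).filter Nat.Prime, ∀ q, ¬ (p : ℤ) ∣ v + (a : ℤ) * h' q := by
    choose! s hs using hadm'
    obtain ⟨v, hv⟩ := Pool.Agent.Helper74.FB.crt D (fun p => if p ∣ a then 1 else a * s p)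
    refine ⟨v, fun p hp q hdv => ?_⟩
    have hpp := (mem_filter.1 hp).2
    have hpW : (p : ℤ) ∣ (W : ℤ) := by
      rw [hWdef, Pool.Agent.H410R2.WW]
      exact_mod_cast dvd_prod_of_mem _ hp
    have hv1 := hv p hp
    by_cases hpa : p ∣ a
    · simp only [if_pos hpa] at hv1
      have h1 : (p : ℤ) ∣ (a : ℤ) * h' q := Dvd.dvd.mul_right (by exact_mod_cast hpa) _
      have h2 := dvd_sub (dvd_sub hdv h1) hv1
      have e : v + (a : ℤ) * h' q - (a : ℤ) * h' q - (v - 1) = 1 := by ring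
      rw [e] at h2
      have h4 : p ∣ 1 := by exact_mod_cast h2
      exact hpp.one_lt.ne' (Nat.dvd_one.1 h4)
    · simp only [if_neg hpa] at hv1
      have key : ∃ g i, (p : ℤ) ∣ (h' q : ℤ) - h g i := by
        rcases q with _ | i
        · refine ⟨g₀, i₀, ?_⟩
          have e : ((h' none : ℕ) : ℤ) - h g₀ i₀ = (W : ℤ) * (1 + Hm) := by
            show ((h₀ : ℕ) : ℤ) - h g₀ i₀ = (W : ℤ) * (1 + Hm)
            rw [hh₀]
            push_cast
            ring
          rw [e]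
          exact hpW.mul_right _
        · refine ⟨Pool.Agent.TH899.UG.Uni.cl i, Pool.Agent.TH899.UG.Uni.sx i, ?_⟩
          have e : ((h' (some i) : ℕ) : ℤ) - h (Pool.Agent.TH899.UG.Uni.cl i)
            (Pool.Agent.TH899.UG.Uni.sx i) = 0 := sub_self _
          rw [e]
          exact dvd_zero _
      obtain ⟨g, i, hgi⟩ := key
      have h2 := dvd_sub (dvd_sub hdv hv1) (hgi.mul_left (a : ℤ))
      have e : v + (a : ℤ) * h' q - (v - a * s p) - a * ((h' q : ℤ) - h g i) = a * (s p + h g i) := by ring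
      rw [e] at h2
      rcases (Nat.prime_iff_prime_int.1 hpp).dvd_or_dvd h2 with h3 | h3
      · exact hpa (by exact_mod_cast h3)
      · exact hs p hpp g i h3
  obtain ⟨v, hv⟩ := hex
  have hmain := H1 a haa₁ hGG Y (by omega) hLY hYa v hv
  refine hmain.trans ?_
  rw [Nat.cast_le]
  apply card_le_card
  intro b hb
  obtain ⟨hb1, hb2⟩ := mem_filter.1 hb
  refine mem_filter.2 ⟨hb1, ?_⟩
  have hab := mem_Icc.1 hb1
  -- pigeonhole
  set Z : ℝ := Y / Real.log a ^ (T * K + 1) with hZ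
  set PP : (Fin T → Fin K) → Finset ℕ := fun τ => ((univ : Finset (Fin T)).erase g₀).image
    (fun g => h g (τ g)) with hPP
  have hsub : (Icc 1 Y).filter (fun n : ℕ => Pool.Agent.Helper74.FB.GdAQ
      (Pool.Agent.Helper74.FB.Pin g₀ i₀) δ a Y h' b n) ⊆
      (univ : Finset (Fin T → Fin K)).biUnion (fun τ => cluster a b Y h₁ (PP τ)) := by
    intro n hn
    obtain ⟨hn1, hn2, hn3, hr, S, σ, τ, ⟨hS, hσ0⟩, hτ, hσ⟩ := mem_filter.1 hn
    refine mem_biUnion.2 ⟨τ, mem_univ _, ?_⟩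
    have haY : 129 ≤ a * Y := by
      calc 129 ≤ 1 * Y := by omega
        _ ≤ a * Y := Nat.mul_le_mul_right _ (by omega)
    have hval : ∀ g i, ((b + a * n : ℕ) : ℤ) + (a : ℤ) * h' (some (Pool.Agent.TH899.UG.Uni.ix g i)) =
        ((b + a * (n + h g i) : ℕ) : ℤ) := by
      intro g i
      rw [hix]
      push_cast
      ring
    have hbd : ∀ q, 64 * |(a : ℤ) * h' q| ≤ ((a * Y : ℕ) : ℤ) := by
      intro q
      rw [abs_of_nonneg (by positivity)]
      have h1 : 64 * (a * h' q) ≤ a * Y := by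
        calc 64 * (a * h' q) = a * (64 * h' q) := by ring
          _ ≤ a * Y := Nat.mul_le_mul_left _ (by
            have := hh'b q
            omega)
      exact_mod_cast h1
    unfold cluster
    refine mem_filter.2 ⟨hn1, ?_, ?_⟩
    · have h1 := hσ g₀ hS
      beta_reduce at h1
      rw [hσ0, hval, Int.toNat_natCast] at h1
      have h2 : h g₀ i₀ = h₁ := hs0
      rw [h2] at h1
      exact h1
    · intro x hx
      obtain ⟨g, hg, rfl⟩ := mem_image.1 hx
      have h1 := hτ g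
      have h2 := Pool.Agent.Helper74.FB.apV_two haY hn2 hn3 (hbd (some (Pool.Agent.TH899.UG.Uni.ix g (τ g)))) h1
      obtain ⟨q, hq1, hq2, hq3⟩ := h2
      rw [hval] at hq2
      have hq4 : q = b + a * (n + h g (τ g)) := by exact_mod_cast hq2
      rw [hq4] at hq3
      exact hq3
  have hPPc : ∀ τ, PP τ ⊆ H.erase h₁ ∧ (PP τ).card = m := by
    intro τ
    constructor
    · intro x hx
      obtain ⟨g, hg, rfl⟩ := mem_image.1 hx
      refine mem_erase.2 ⟨fun hx => ?_, (hs (g, τ g)).2⟩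
      have e1 : hs (g, τ g) = hs (g₀, i₀) := Subtype.ext (hx.trans hs0.symm)
      exact (mem_erase.1 hg).1 (Prod.ext_iff.1 (hs.injective e1)).1
    · have hinj : Function.Injective (fun g => h g (τ g)) := by
        intro g g' hgg
        have e1 : hs (g, τ g) = hs (g', τ g') := Subtype.ext hgg
        exact (Prod.ext_iff.1 (hs.injective e1)).1
      rw [hPP]
      simp only
      rw [card_image_of_injective _ hinj, card_erase_of_mem (mem_univ _), card_univ, Fintype.card_fin]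
      omega
  by_contra hcon
  push Not at hcon
  have e1 := (Nat.cast_le (α := ℝ)).2 ((card_le_card hsub).trans card_biUnion_le)
  rw [Nat.cast_sum] at e1
  have e4 : ((univ : Finset (Fin T → Fin K)).card : ℝ) = P := by
    rw [card_univ, Fintype.card_fun, Fintype.card_fin, Fintype.card_fin]
  have hY0 : (0 : ℝ) < Y := by exact_mod_cast (by omega : 0 < Y)
  have hZ0 : 0 < Z := by positivity
  have e2 : ∑ τ : Fin T → Fin K, ((cluster a b Y h₁ (PP τ)).card : ℝ) <
      ∑ _τ : Fin T → Fin K, κ / P * Z := by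
    apply Finset.sum_lt_sum_of_nonempty ⟨fun _ => i₀, mem_univ _⟩
    intro τ _
    refine (hcon (PP τ) (hPPc τ).1 (hPPc τ).2).trans_le ?_
    rw [hLs, hZ, div_mul_eq_mul_div, div_le_div_iff₀ (by positivity) hPr]
    rw [div_le_iff₀ hκ] at hlogaP
    calc (Y : ℝ) * P ≤ Y * (Real.log a * κ) := mul_le_mul_of_nonneg_left hlogaP hY0.le
      _ = κ * (Y / Real.log a ^ (T * K + 1)) * (Real.log a * Real.log a ^ (T * K + 1)) := by
        field_simp
  rw [Finset.sum_const, nsmul_eq_mul, e4] at e2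
  have e6 : (P : ℝ) * (κ / P * Z) = κ * Z := by
    field_simp
  rw [e6] at e2
  have := hb2.trans e1
  linarith

end Pool.Agent.Results.MP_5b0a7e_nt.PrescribedPrimeWithNeighbours
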