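import Mathlib
import Pool.Agent.Helper74.FB.DenseA

/-! # Small primes in classes modulo several large moduli, with the same multipliers

`a j`, `j < J`, are moduli with `a j ≤ G φ(a j)`, possibly as large as `X / (log X) ^ A`, `𝒬 ⊆ [1, Y]` is any set of at
least `d Y` integers, and `𝓗` is an admissible set of sufficiently many shifts. For a positive proportion of the
`J`-tuples of integers `b j ≤ X` there are `r` shifts `h ∈ 𝓗` such that for many `n ∈ 𝒬` all the `r J` numbers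
`b j + a j (n + h)` are primes. -/

set_option autoImplicit false

namespace Pool.Agent.Results.MP_5b0a7e_nt.SynchronisedClusters

open Finset

/-- for every prime `p` the shifts miss a class modulo `p` -/
def Admissible (𝓗 : Finset ℕ) : Prop := ∀ p : ℕ, p.Prime → ∃ s : ℤ, ∀ h ∈ 𝓗, ¬ (p : ℤ) ∣ s + h

open Classical in
/-- for `r` of the shifts there are at least `B` of the `n ∈ 𝒬` such that all the `b j + a j * (n + h)` are primes -/
def Many {J : ℕ} (a : Fin J → ℕ) (𝓗 : Finset ℕ) (r : ℕ) (𝒬 : Finset ℕ) (B : ℝ) (b : Fin J → ℕ) : Prop :=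
  ∃ P ⊆ 𝓗, P.card = r ∧
    B ≤ (((𝒬.filter (fun n : ℕ => ∀ j, ∀ h ∈ P, (b j + a j * (n + h)).Prime)).card : ℕ) : ℝ)

open Classical in
/-- **Small primes in classes modulo several large moduli.** -/
theorem result (J r : ℕ) (hJ : 1 ≤ J) (hr : 1 ≤ r) : ∃ K A : ℕ, ∀ 𝓗 : Finset ℕ, K ≤ 𝓗.card → Admissible 𝓗 →
    ∀ G d : ℝ, 0 < d → ∃ κ : ℝ, 0 < κ ∧ ∃ X₀ : ℕ, ∀ X : ℕ, X₀ ≤ X → ∀ Y : ℕ, Real.log X ^ A ≤ Y →
      ∀ a : Fin J → ℕ, (∀ j, 1 ≤ a j ∧ (a j : ℝ) ≤ G * (a j).totient ∧ (a j : ℝ) * Y ≤ κ * X) →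
      ∀ 𝒬 ⊆ Icc 1 Y, d * Y ≤ (𝒬.card : ℝ) →
      κ * (X : ℝ) ^ J ≤ (({b ∈ Fintype.piFinset (fun _ : Fin J => Icc 1 X) |
        Many a 𝓗 r 𝒬 (Y / Real.log X ^ A) b}.card : ℕ) : ℝ) := by
  obtain ⟨K, B, h1⟩ := Pool.Agent.Helper74.FB.denseAJ J r hr
  refine ⟨K, B, fun 𝓗 h𝓗 hadm G d hd => ?_⟩
  obtain ⟨f, hf⟩ : ∃ f : ℕ → Polynomial ℤ, f = fun (i : ℕ) =>
    Polynomial.C (1 : ℤ) * Polynomial.X + Polynomial.C ((i : ℕ) : ℤ) := ⟨_, rfl⟩
  have hev : ∀ i, ∀ x : ℤ, (f i).eval x = x + i := by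
    intro i x
    rw [hf]
    simp
  have hdeg : ∀ i, (f i).natDegree = 1 := by
    intro i
    rw [hf]
    exact Polynomial.natDegree_linear one_ne_zero
  obtain ⟨κ, hκ, X₀, h2⟩ := h1 𝓗 h𝓗 (fun _ i => f i) (fun _ i hi => by rw [hdeg i])
    (fun _ i hi i' hi' heq => by
      have e0 : (f i).eval 0 = (f i').eval 0 := by rw [heq]
      rw [hev, hev] at e0
      have e2 : (i : ℤ) = i' := by linarith
      exact_mod_cast e2) (by
      intro p hp u j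
      obtain ⟨s, hs⟩ := hadm p hp
      refine ⟨s - u, fun i hi hd => hs i hi ?_⟩
      rw [hev] at hd
      have e1 : s - u + (u + (i : ℤ)) = s + i := by ring
      rwa [e1] at hd) d hd G
  refine ⟨κ, hκ, X₀, fun X hX Y hY1 a ha 𝒬 h𝒬 hcard => ?_⟩
  have hGG : ∀ j, Pool.Agent.Erdos456.GG (a j) ≤ G := by
    intro j
    obtain ⟨h3, h4, -⟩ := ha j
    have hφ : (0 : ℝ) < (a j).totient := by exact_mod_cast Nat.totient_pos.2 (by omega)
    unfold Pool.Agent.Erdos456.GG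
    rw [div_le_iff₀ hφ]
    exact h4
  have hYκ : (Y : ℝ) ≤ κ * X := by
    obtain ⟨h3, -, h5⟩ := ha ⟨0, hJ⟩
    have h6 : (1 : ℝ) ≤ a ⟨0, hJ⟩ := by exact_mod_cast h3
    exact (le_mul_of_one_le_left (Nat.cast_nonneg Y) h6).trans h5
  refine (h2 X hX Y hY1 hYκ a (fun j => ⟨(ha j).1, hGG j⟩)
    (fun j i hi => by rw [hdeg i, pow_one]; exact (ha j).2.2) 𝒬 h𝒬 hcard).trans ?_
  rw [Nat.cast_le]
  apply card_le_card
  intro b hb
  obtain ⟨hb1, -, P, hP, hPc, hcl⟩ := mem_filter.1 hb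
  refine mem_filter.2 ⟨hb1, P, hP, hPc, hcl.trans ?_⟩
  rw [Nat.cast_le]
  apply card_le_card
  intro n hn
  obtain ⟨hn1, hn2⟩ := mem_filter.1 hn
  refine mem_filter.2 ⟨hn1, fun j h hh => ?_⟩
  obtain ⟨q, hq, hq2⟩ := hn2 j h hh
  have e1 : b j + a j * (n + h) = q := by
    have e2 : ((b j + a j * (n + h) : ℕ) : ℤ) = q := by
      rw [hq2, hev]
      push_cast
      ring
    exact_mod_cast e2
  rw [e1]
  exact hq

end Pool.Agent.Results.MP_5b0a7e_nt.SynchronisedClusters
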